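import Mathlib

/-!
# Numbers for the lower bound (helper74; frame H63/CM/Low)
-/

set_option autoImplicit false

open Filter Real

namespace Pool.Agent.H63.CM

/-- one term -/
private theorem low_term {l h : ℝ} (hl : 0 < l) (hh : 1 < h) {c : ℝ} (hc : 1 / l ≤ c) :
    c * (exp (-(l ^ 2 * (1 / h))) - 1) ≤
      (1 / l) * (l ^ 2 * (log h - log (h + 1)) + l ^ 4 * (1 / (h - 1) - 1 / h)) := by
  have hh0 : 0 < h := by linarith
  obtain ⟨y, hy⟩ : ∃ y, y = l ^ 2 * (1 / h) := ⟨_, rfl⟩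
  have hy0 : 0 ≤ y := by rw [hy]; positivity
  rw [← hy]
  have h1 : exp (-y) ≤ 1 - y + y ^ 2 := by
    rw [exp_neg]
    have h2 : 1 + y ≤ exp y := by have := add_one_le_exp y; linarith
    have h3 : (exp y)⁻¹ ≤ (1 + y)⁻¹ := inv_anti₀ (by linarith) h2
    refine h3.trans ?_
    rw [inv_le_iff_one_le_mul₀ (by linarith)]
    have : (1 - y + y ^ 2) * (1 + y) = 1 + y ^ 3 := by ring
    have h4 : 0 ≤ y ^ 3 := by positivity
    linarith
  have h5 : exp (-y) - 1 ≤ 0 := by
    have : exp (-y) ≤ 1 := by rw [exp_le_one_iff]; linarith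
    linarith
  have h6 : c * (exp (-y) - 1) ≤ (1 / l) * (exp (-y) - 1) := mul_le_mul_of_nonpos_right hc h5
  refine h6.trans ?_
  refine mul_le_mul_of_nonneg_left ?_ (by positivity)
  have h7 : log (h + 1) - log h ≤ 1 / h := by
    rw [← log_div (by linarith) hh0.ne']
    have := log_le_sub_one_of_pos (x := (h + 1) / h) (by positivity)
    have e : (h + 1) / h - 1 = 1 / h := by field_simp; ring
    rw [e] at this
    exact this
  have h8 : (1 / h) ^ 2 ≤ 1 / (h - 1) - 1 / h := by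
    have e : 1 / (h - 1) - 1 / h = 1 / ((h - 1) * h) := by
      have : h - 1 ≠ 0 := by linarith
      field_simp
      ring
    rw [e, one_div_pow]
    refine one_div_le_one_div_of_le (by nlinarith) ?_
    nlinarith
  have h9 : y ^ 2 ≤ l ^ 4 * (1 / (h - 1) - 1 / h) := by
    have : y ^ 2 = l ^ 4 * (1 / h) ^ 2 := by rw [hy]; ring
    rw [this]
    exact mul_le_mul_of_nonneg_left h8 (by positivity)
  have h10 : -y ≤ l ^ 2 * (log h - log (h + 1)) := by
    have : l ^ 2 * (log (h + 1) - log h) ≤ l ^ 2 * (1 / h) := mul_le_mul_of_nonneg_left h7 (by positivity)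
    rw [hy]
    linarith
  linarith

theorem num_low {ε : ℝ} (hε : 0 < ε) : ∀ᶠ n : ℕ in atTop,
    (log n) ^ 2 * (1 - (2 + ε) * log (log n) / log n) +
      ∑ m ∈ Finset.Ico 3 n, (1 / log m) * (exp (-((log n) ^ 2 * (1 / ((n : ℝ) - m)))) - 1) ≤ -(2 * log n) := by
  have tl : Tendsto (fun n : ℕ => log (n : ℝ)) atTop atTop := tendsto_log_atTop.comp tendsto_natCast_atTop_atTop
  have tll : Tendsto (fun n : ℕ => log (log (n : ℝ))) atTop atTop := tendsto_log_atTop.comp tl
  have hlo : ∀ᶠ n : ℕ in atTop, (log (n : ℝ)) ^ 2 ≤ (n : ℝ) / 2 := by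
    have h := (isLittleO_pow_log_id_atTop (n := 2)).bound (show (0 : ℝ) < 1 / 2 by norm_num)
    have h2 := tendsto_natCast_atTop_atTop.eventually h
    filter_upwards [h2] with n hn
    rw [norm_of_nonneg (by positivity), id, norm_of_nonneg (Nat.cast_nonneg n)] at hn
    linarith
  filter_upwards [hlo, tl.eventually_ge_atTop 2, tll.eventually_ge_atTop (5 / ε), eventually_ge_atTop 10]
    with n h1 h2 h3 h4
  obtain ⟨l, hl⟩ : ∃ l, l = log (n : ℝ) := ⟨_, rfl⟩
  rw [← hl] at h1 h2 h3 ⊢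
  have hl0 : 0 < l := by linarith
  have hn10 : (10 : ℝ) ≤ n := by exact_mod_cast h4
  obtain ⟨H, hH⟩ : ∃ H : ℕ, H = ⌈l ^ 2⌉₊ + 1 := ⟨_, rfl⟩
  have hH1 : l ^ 2 ≤ (H : ℝ) - 1 := by
    rw [hH]; push_cast
    have := Nat.le_ceil (l ^ 2)
    linarith
  have hH2 : (H : ℝ) ≤ l ^ 2 + 2 := by
    rw [hH]; push_cast
    have := Nat.ceil_lt_add_one (show 0 ≤ l ^ 2 by positivity)
    linarith
  have hHn : H + 3 ≤ n := by
    have : (H : ℝ) + 3 ≤ n := by linarith
    exact_mod_cast this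
  have hlog : ∀ m : ℕ, 3 ≤ m → m < n → 1 / l ≤ 1 / log m := by
    intro m hm hmn
    have h5 : 0 < log (m : ℝ) := log_pos (by exact_mod_cast (show 1 < m by omega))
    refine one_div_le_one_div_of_le h5 ?_
    rw [hl]
    exact log_le_log (by exact_mod_cast (show 0 < m by omega)) (by exact_mod_cast hmn.le)
  -- telescoping
  have tel : ∀ K : ℕ, 3 ≤ K → K + H ≤ n + 1 →
      ∑ m ∈ Finset.Ico 3 K, (1 / log m) * (exp (-(l ^ 2 * (1 / ((n : ℝ) - m)))) - 1) ≤
        (1 / l) * (l ^ 2 * log (n - K + 1) + l ^ 4 * (1 / (n - K))) -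
          (1 / l) * (l ^ 2 * log (n - 2) + l ^ 4 * (1 / (n - 3))) := by
    intro K hK
    induction K, hK using Nat.le_induction with
    | base =>
      intro _
      rw [Finset.Ico_self, Finset.sum_empty]
      have e1 : (n : ℝ) - (3 : ℕ) + 1 = n - 2 := by push_cast; ring
      rw [e1]
      push_cast
      linarith
    | succ K hK ih =>
      intro hKn
      have ih' := ih (by omega)
      rw [Finset.sum_Ico_succ_top hK]
      have hHpos : 1 ≤ H := by rw [hH]; omega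
      have hH3 : 2 ≤ H := by
        rw [hH]
        have : 0 < ⌈l ^ 2⌉₊ := Nat.ceil_pos.2 (by positivity)
        omega
      have hh : (1 : ℝ) < (n : ℝ) - K := by
        have : (K : ℝ) + 2 ≤ n := by exact_mod_cast (show K + 2 ≤ n by omega)
        linarith
      have ht := low_term hl0 hh (hlog K hK (by omega))
      have e2 : (n : ℝ) - ((K + 1 : ℕ) : ℝ) + 1 = n - K := by push_cast; ring
      have e3 : (n : ℝ) - ((K + 1 : ℕ) : ℝ) = n - K - 1 := by push_cast; ring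
      rw [e2, e3]
      have e4 : (1 / l) * (l ^ 2 * (log ((n : ℝ) - K) - log ((n : ℝ) - K + 1)) +
          l ^ 4 * (1 / ((n : ℝ) - K - 1) - 1 / ((n : ℝ) - K))) =
          (1 / l) * (l ^ 2 * log ((n : ℝ) - K) + l ^ 4 * (1 / ((n : ℝ) - K - 1))) -
          (1 / l) * (l ^ 2 * log ((n : ℝ) - K + 1) + l ^ 4 * (1 / ((n : ℝ) - K))) := by ring
      rw [e4] at ht
      linarith
  obtain ⟨K, hK⟩ : ∃ K : ℕ, K = n + 1 - H := ⟨_, rfl⟩
  have hK3 : 3 ≤ K := by omega
  have hKn : K ≤ n := by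
    have : 1 ≤ H := by rw [hH]; omega
    omega
  have hKr : (K : ℝ) = n + 1 - H := by
    rw [hK, Nat.cast_sub (by omega)]
    push_cast
    ring
  have ht := tel K hK3 (by omega)
  rw [← Finset.sum_Ico_consecutive _ hK3 hKn]
  have hneg : ∑ m ∈ Finset.Ico K n, (1 / log m) * (exp (-(l ^ 2 * (1 / ((n : ℝ) - m)))) - 1) ≤ 0 := by
    refine Finset.sum_nonpos fun m hm => ?_
    rw [Finset.mem_Ico] at hm
    have h5 : 0 < log (m : ℝ) := log_pos (by exact_mod_cast (show 1 < m by omega))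
    have h6 : (0 : ℝ) < (n : ℝ) - m := by
      have : (m : ℝ) < n := by exact_mod_cast hm.2
      linarith
    refine mul_nonpos_of_nonneg_of_nonpos (by positivity) ?_
    have : exp (-(l ^ 2 * (1 / ((n : ℝ) - m)))) ≤ 1 := by
      rw [exp_le_one_iff]
      have : 0 ≤ l ^ 2 * (1 / ((n : ℝ) - m)) := by positivity
      linarith
    linarith
  have e5 : (n : ℝ) - K + 1 = H := by rw [hKr]; ring
  have e6 : (n : ℝ) - K = H - 1 := by rw [hKr]; ring
  rw [e5, e6] at ht
  have hH0 : 0 < (H : ℝ) - 1 := lt_of_lt_of_le (by positivity) hH1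
  -- bounds
  have b1 : l ^ 4 * (1 / ((H : ℝ) - 1)) ≤ l ^ 2 := by
    rw [mul_one_div, div_le_iff₀ hH0]
    calc l ^ 4 = l ^ 2 * l ^ 2 := by ring
      _ ≤ l ^ 2 * ((H : ℝ) - 1) := mul_le_mul_of_nonneg_left hH1 (by positivity)
  have log2 : log 2 ≤ 1 := by
    have := log_le_sub_one_of_pos (x := 2) (by norm_num)
    linarith
  have b2 : log (H : ℝ) ≤ 2 * log l + 1 := by
    have h5 : (H : ℝ) ≤ 2 * l ^ 2 := by nlinarith
    have h6 : log (H : ℝ) ≤ log (2 * l ^ 2) := log_le_log (by linarith) h5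
    rw [log_mul (by norm_num) (by positivity), log_pow] at h6
    push_cast at h6
    linarith
  have b3 : l - 1 ≤ log ((n : ℝ) - 2) := by
    have h5 : (n : ℝ) / 2 ≤ n - 2 := by linarith
    have h6 : log ((n : ℝ) / 2) ≤ log ((n : ℝ) - 2) := log_le_log (by positivity) h5
    rw [log_div (by linarith) (by norm_num), ← hl] at h6
    linarith
  have b4 : 0 ≤ l ^ 4 * (1 / ((n : ℝ) - 3)) := by
    have : 0 < (n : ℝ) - 3 := by linarith
    positivity
  have b5 : (1 / l) * (l ^ 2 * log (H : ℝ) + l ^ 4 * (1 / ((H : ℝ) - 1))) -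
      (1 / l) * (l ^ 2 * log ((n : ℝ) - 2) + l ^ 4 * (1 / ((n : ℝ) - 3))) ≤
      (1 / l) * (l ^ 2 * (2 * log l + 1) + l ^ 2 - l ^ 2 * (l - 1)) := by
    rw [← mul_sub]
    refine mul_le_mul_of_nonneg_left ?_ (by positivity)
    have c1 : l ^ 2 * log (H : ℝ) ≤ l ^ 2 * (2 * log l + 1) := mul_le_mul_of_nonneg_left b2 (by positivity)
    have c2 : l ^ 2 * (l - 1) ≤ l ^ 2 * log ((n : ℝ) - 2) := mul_le_mul_of_nonneg_left b3 (by positivity)
    linarith
  have b6 : (1 / l) * (l ^ 2 * (2 * log l + 1) + l ^ 2 - l ^ 2 * (l - 1)) = l * (2 * log l + 3 - l) := by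
    field_simp
    ring
  have b7 : l ^ 2 * (1 - (2 + ε) * log l / l) = l * (l - (2 + ε) * log l) := by
    field_simp
  have b8 : 5 ≤ ε * log l := by
    rw [div_le_iff₀ hε] at h3
    linarith
  rw [b7]
  have b9 : l * 5 ≤ l * (ε * log l) := mul_le_mul_of_nonneg_left b8 hl0.le
  rw [b6] at b5
  have hfin := ((add_le_add ht hneg).trans_eq (add_zero _)).trans b5
  nlinarith

end Pool.Agent.H63.CM
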